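import Mathlib
import Pool.Graph.R_pool_sql_team_seeded_2aa45f1a.Q304.RG.Main

/-!
# Strictly increasing sequences with an irrational rotation limit are a complete analytic set

For every `g : ℕ → ℕ` the set of the strictly increasing sequences `n` of positive integers with
`n (k + 1) > n k + g k` and with `z ^ n k → 1` for some `z` on the circle that is not a root of unity
is a complete analytic set; in particular it is not Borel.
-/

set_option autoImplicit false

open Filter hiding seq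
open Topology MeasureTheory

namespace Pool.Agent.Results.MP_9e8ffd_lc.IncreasingSequences

open Pool.Agent.Q304.RG Pool.Agent.H731R3.Tame

/-- The set `S` of the problem. -/
def IrrationalLimit : Set (ℕ → ℤ) :=
  {n | ∃ z : ℂ, ‖z‖ = 1 ∧ (∀ q : ℕ, 0 < q → z ^ q ≠ 1) ∧ Tendsto (fun k => z ^ n k) atTop (𝓝 1)}

/-- The sequences of positive integers whose gaps `n (k + 1) - n k` are larger than `g k`. -/
def Growing (g : ℕ → ℕ) : Set (ℕ → ℤ) := {n | 0 < n 0 ∧ ∀ k, n k + g k < n (k + 1)}

/-- A bound for the tests, independent of the tree. -/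
noncomputable def Bd (i : ℕ) : ℕ :=
  M i.unpair.1 + w i.unpair.1 i.unpair.2.unpair.1 i.unpair.2.unpair.2 *
    Q i.unpair.1 i.unpair.2.unpair.1

lemma seq_le (τ : List ℕ → Bool) (i : ℕ) : seq τ i ≤ Bd i := by
  have : u τ i.unpair.1 i.unpair.2.unpair.1 i.unpair.2.unpair.2 ≤ Bd i := by
    unfold u Bd
    split_ifs <;> omega
  unfold seq
  exact_mod_cast this

lemma seq_nonneg (τ : List ℕ → Bool) (i : ℕ) : 0 ≤ seq τ i := by
  unfold seq
  positivity

lemma exists_big (k C : ℕ) : ∃ k', k < k' ∧ C < M k' := by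
  refine ⟨k + C + 2, by omega, ?_⟩
  rw [show k + C + 2 = (k + C + 1) + 1 by ring, M_succ]
  have h1 := le_m (k + C + 1)
  have h2 := M_pos (k + C + 1)
  nlinarith

/-- The next index. -/
noncomputable def next (g : ℕ → ℕ) (i k : ℕ) : ℕ :=
  (exists_big k (2 * M k + ∑ j ∈ Finset.range (i + 2), Bd j + ∑ j ∈ Finset.range (2 * i + 4), g j)).choose

/-- Indices that grow fast. -/
noncomputable def K (g : ℕ → ℕ) : ℕ → ℕ
  | 0 => (exists_big 0 (g 0)).choose
  | i + 1 => next g i (K g i)

lemma K_lt (g : ℕ → ℕ) (i : ℕ) : K g i < K g (i + 1) :=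
  (exists_big (K g i) _).choose_spec.1

lemma K_zero (g : ℕ → ℕ) : g 0 < M (K g 0) := (exists_big 0 (g 0)).choose_spec.2

lemma K_big (g : ℕ → ℕ) (i : ℕ) : 2 * M (K g i) + ∑ j ∈ Finset.range (i + 2), Bd j +
    ∑ j ∈ Finset.range (2 * i + 4), g j < M (K g (i + 1)) :=
  (exists_big (K g i) _).choose_spec.2

lemma K_mono (g : ℕ → ℕ) : StrictMono (K g) := strictMono_nat_of_lt_succ (K_lt g)

/-- The increasing sequence attached to a sequence of tests. -/
noncomputable def inc (g : ℕ → ℕ) (a : ℕ → ℤ) (k : ℕ) : ℤ :=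
  if k % 2 = 0 then M (K g (k / 2 + 1)) else M (K g (k / 2 + 1)) + M (K g (k / 2)) + a (k / 2)

lemma inc_even (g : ℕ → ℕ) (a : ℕ → ℤ) (i : ℕ) : inc g a (2 * i) = M (K g (i + 1)) := by
  have h1 : 2 * i % 2 = 0 := by omega
  have h2 : 2 * i / 2 = i := by omega
  rw [inc, if_pos h1, h2]

lemma inc_odd (g : ℕ → ℕ) (a : ℕ → ℤ) (i : ℕ) :
    inc g a (2 * i + 1) = M (K g (i + 1)) + M (K g i) + a i := by
  have h1 : ¬ (2 * i + 1) % 2 = 0 := by omega
  have h2 : (2 * i + 1) / 2 = i := by omega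
  rw [inc, if_neg h1, h2]

lemma continuous_inc (g : ℕ → ℕ) : Continuous (inc g) := by
  refine continuous_pi fun k => ?_
  unfold inc
  by_cases h : k % 2 = 0
  · simp only [h, if_true]
    exact continuous_const
  · simp only [h, if_false]
    exact continuous_const.add (continuous_apply _)

lemma inc_growing (g : ℕ → ℕ) (a : ℕ → ℤ) (h0 : ∀ i, 0 ≤ a i) (h1 : ∀ i, a i ≤ Bd i) :
    inc g a ∈ Growing g := by
  refine ⟨?_, fun k => ?_⟩
  · have := inc_even g a 0
    rw [mul_zero] at this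
    rw [this]
    exact_mod_cast M_pos _
  · obtain ⟨i, hi⟩ := Nat.even_or_odd' k
    rcases hi with rfl | rfl
    · rw [inc_even, inc_odd]
      have h2 : g (2 * i) < M (K g i) := by
        rcases i with _ | i
        · exact K_zero g
        · have h3 := K_big g i
          have h4 : g (2 * (i + 1)) ≤ ∑ j ∈ Finset.range (2 * i + 4), g j :=
            Finset.single_le_sum (fun _ _ => Nat.zero_le _) (Finset.mem_range.2 (by omega))
          omega
      have h3 := h0 i
      have h4 : (g (2 * i) : ℤ) < M (K g i) := by exact_mod_cast h2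
      linarith
    · rw [show 2 * i + 1 + 1 = 2 * (i + 1) by ring, inc_even, inc_odd]
      have h3 := K_big g (i + 1)
      have h4 : g (2 * i + 1) ≤ ∑ j ∈ Finset.range (2 * (i + 1) + 4), g j :=
        Finset.single_le_sum (fun _ _ => Nat.zero_le _) (Finset.mem_range.2 (by omega))
      have h5 : Bd i ≤ ∑ j ∈ Finset.range (i + 1 + 2), Bd j :=
        Finset.single_le_sum (fun _ _ => Nat.zero_le _) (Finset.mem_range.2 (by omega))
      have h6 : M (K g i) ≤ M (K g (i + 1)) := M_le_M (K_lt g i).le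
      have h7 : M (K g (i + 1)) + M (K g i) + Bd i + g (2 * i + 1) < M (K g (i + 1 + 1)) := by
        omega
      have h8 : ((M (K g (i + 1)) + M (K g i) + Bd i + g (2 * i + 1) : ℕ) : ℤ) <
          M (K g (i + 1 + 1)) := by exact_mod_cast h7
      push_cast at h8
      have := h1 i
      linarith

lemma tendsto_M {τ : List ℕ → Bool} {z : ℂ}
    (h : Tendsto (fun i => z ^ seq τ i) atTop (𝓝 1)) :
    Tendsto (fun N => z ^ ((M N : ℕ) : ℤ)) atTop (𝓝 1) := by
  have h1 : Tendsto (fun N : ℕ => Nat.pair N (Nat.pair 0 0)) atTop atTop :=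
    tendsto_atTop_mono (fun N => Nat.left_le_pair N _) tendsto_id
  have h2 := h.comp h1
  refine h2.congr fun N => ?_
  simp only [Function.comp, seq, Nat.unpair_pair, u_zero]

lemma inc_mem_iff (g : ℕ → ℕ) (τ : List ℕ → Bool) :
    inc g (seq τ) ∈ IrrationalLimit ↔ seq τ ∈ IrrationalLimit := by
  have hKt : Tendsto (K g) atTop atTop := (K_mono g).tendsto_atTop
  constructor
  · rintro ⟨z, hz, hq, ht⟩
    have hz0 : z ≠ 0 := by
      intro h
      rw [h, norm_zero] at hz
      exact zero_ne_one hz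
    refine ⟨z, hz, hq, ?_⟩
    have e1 : Tendsto (fun i => z ^ ((M (K g (i + 1)) : ℕ) : ℤ)) atTop (𝓝 1) := by
      have := ht.comp (tendsto_atTop_mono (fun i : ℕ => (by omega : i ≤ 2 * i)) tendsto_id)
      refine this.congr fun i => ?_
      simp only [Function.comp, inc_even]
    have e0 : Tendsto (fun i => z ^ ((M (K g i) : ℕ) : ℤ)) atTop (𝓝 1) :=
      (tendsto_add_atTop_iff_nat (f := fun i => z ^ ((M (K g i) : ℕ) : ℤ)) 1).1 e1
    have e2 : Tendsto (fun i => z ^ (((M (K g (i + 1)) : ℕ) : ℤ) + ((M (K g i) : ℕ) : ℤ) + seq τ i))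
        atTop (𝓝 1) := by
      have := ht.comp (tendsto_atTop_mono (fun i : ℕ => (by omega : i ≤ 2 * i + 1)) tendsto_id)
      refine this.congr fun i => ?_
      simp only [Function.comp, inc_odd]
    have e3 := (e2.div (e1.mul e0) (by simp))
    rw [one_mul, div_one] at e3
    refine e3.congr fun i => ?_
    rw [Pi.div_apply, zpow_add₀ hz0, zpow_add₀ hz0]
    rw [mul_div_assoc, mul_comm, div_mul_cancel₀]
    exact mul_ne_zero (zpow_ne_zero _ hz0) (zpow_ne_zero _ hz0)
  · rintro ⟨z, hz, hq, ht⟩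
    have hz0 : z ≠ 0 := by
      intro h
      rw [h, norm_zero] at hz
      exact zero_ne_one hz
    refine ⟨z, hz, hq, ?_⟩
    have hM := tendsto_M ht
    have e0 : Tendsto (fun i => z ^ ((M (K g i) : ℕ) : ℤ)) atTop (𝓝 1) := hM.comp hKt
    have e1 : Tendsto (fun i => z ^ ((M (K g (i + 1)) : ℕ) : ℤ)) atTop (𝓝 1) :=
      e0.comp (tendsto_add_atTop_nat 1)
    have e2 : Tendsto (fun i => z ^ (((M (K g (i + 1)) : ℕ) : ℤ) + ((M (K g i) : ℕ) : ℤ) + seq τ i))
        atTop (𝓝 1) := by
      have := (e1.mul e0).mul ht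
      rw [one_mul, one_mul] at this
      refine this.congr fun i => ?_
      rw [zpow_add₀ hz0, zpow_add₀ hz0]
    have hh : Tendsto (fun k : ℕ => k / 2) atTop atTop :=
      Nat.tendsto_div_const_atTop (by norm_num)
    have e3 := (e1.comp hh).if' (p := fun k : ℕ => k % 2 = 0) (e2.comp hh)
    refine e3.congr fun k => ?_
    simp only [Function.comp, inc]
    split_ifs <;> rfl

theorem hard_growing (g : ℕ → ℕ) (A : Set (ℕ → ℕ)) (hA : AnalyticSet A) :
    ∃ f : (ℕ → ℕ) → (ℕ → ℤ), Continuous f ∧ (∀ x, f x ∈ Growing g) ∧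
      f ⁻¹' IrrationalLimit = A := by
  obtain ⟨c, hc⟩ := universal A hA
  set T : (ℕ → ℕ) → List ℕ → Bool := fun y s =>
    decide (c (Encodable.encode (br y s.length, s)) = 1) with hT
  refine ⟨fun y => inc g (seq (T y)), ?_, fun y => ?_, ?_⟩
  · refine (continuous_inc g).comp (continuous_seq.comp (continuous_pi fun s => ?_))
    exact (IsLocallyConstant.iff_continuous _).1 ((br_loc s.length).comp
      (fun l => decide (c (Encodable.encode (l, s)) = 1)))
  · exact inc_growing g _ (seq_nonneg _) (seq_le _)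
  · ext y
    rw [Set.mem_preimage, inc_mem_iff]
    have h1 : seq (T y) ∈ IrrationalLimit ↔ T y ∈ IF := (mem_IF_iff (T y)).symm
    rw [h1, hc]
    show (∃ z : ℕ → ℕ, ∀ n, T y (br z n) = true) ↔ ∃ z : ℕ → ℕ, _
    simp only [hT, br_length, decide_eq_true_eq]

theorem not_borel_growing (g : ℕ → ℕ) :
    ¬ MeasurableSet[borel (ℕ → ℤ)] (IrrationalLimit ∩ Growing g) := by
  intro h
  rw [← BorelSpace.measurable_eq (α := ℕ → ℤ)] at h
  apply not_measurable_IF
  have h1 : IF = (fun τ => inc g (seq τ)) ⁻¹' (IrrationalLimit ∩ Growing g) := by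
    ext τ
    rw [Set.mem_preimage, Set.mem_inter_iff, inc_mem_iff]
    have h2 : seq τ ∈ IrrationalLimit ↔ τ ∈ IF := (mem_IF_iff τ).symm
    rw [h2]
    exact ⟨fun h => ⟨h, inc_growing g _ (seq_nonneg _) (seq_le _)⟩, fun h => h.1⟩
  rw [h1]
  exact ((continuous_inc g).comp continuous_seq).measurable h

lemma measurable_pow (k : ℕ) : Measurable fun p : (ℕ → ℤ) × ℂ => p.2 ^ p.1 k := by
  have h1 : Measurable (fun q : ℤ × ℂ => q.2 ^ q.1) :=
    measurable_from_prod_countable_right fun j => measurable_id.pow_const j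
  have h2 : Measurable (fun p : (ℕ → ℤ) × ℂ => (p.1 k, p.2)) :=
    ((measurable_pi_apply k).comp measurable_fst).prodMk measurable_snd
  exact h1.comp h2

theorem analytic_growing (g : ℕ → ℕ) : AnalyticSet (IrrationalLimit ∩ Growing g) := by
  have h : IrrationalLimit ∩ Growing g = Prod.fst '' (({p : (ℕ → ℤ) × ℂ | ‖p.2‖ = 1} ∩
      ((⋂ q : ℕ, {p : (ℕ → ℤ) × ℂ | p.2 ^ (q + 1) ≠ 1}) ∩
      {p : (ℕ → ℤ) × ℂ | Tendsto (fun k => p.2 ^ p.1 k) atTop (𝓝 1)})) ∩
      ({p : (ℕ → ℤ) × ℂ | 0 < p.1 0} ∩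
      ⋂ k : ℕ, {p : (ℕ → ℤ) × ℂ | p.1 k + g k < p.1 (k + 1)})) := by
    ext n
    constructor
    · rintro ⟨⟨z, hz, hq, ht⟩, hn, hg⟩
      exact ⟨(n, z), ⟨⟨hz, Set.mem_iInter.2 fun q => hq (q + 1) (Nat.succ_pos q), ht⟩, hn,
        Set.mem_iInter.2 hg⟩, rfl⟩
    · rintro ⟨⟨n', z⟩, ⟨⟨hz, hq, ht⟩, hn, hg⟩, rfl⟩
      refine ⟨⟨z, hz, fun q h0 => ?_, ht⟩, hn, Set.mem_iInter.1 hg⟩
      obtain ⟨q, rfl⟩ : ∃ q', q = q' + 1 := ⟨q - 1, by omega⟩
      exact Set.mem_iInter.1 hq q
  rw [h]
  refine AnalyticSet.image_of_continuous (MeasurableSet.analyticSet ?_) continuous_fst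
  refine MeasurableSet.inter (MeasurableSet.inter ?_ (MeasurableSet.inter ?_ ?_))
    (MeasurableSet.inter ?_ ?_)
  · exact (measurable_norm.comp measurable_snd) (measurableSet_singleton 1)
  · refine MeasurableSet.iInter fun q => ?_
    exact ((measurable_snd.pow_const (q + 1)) (measurableSet_singleton 1)).compl
  · exact measurableSet_tendsto_fun (fun k => measurable_pow k) measurable_const
  · exact measurableSet_lt measurable_const ((measurable_pi_apply 0).comp measurable_fst)
  · refine MeasurableSet.iInter fun k => ?_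
    exact measurableSet_lt (((measurable_pi_apply k).comp measurable_fst).add measurable_const)
      ((measurable_pi_apply (k + 1)).comp measurable_fst)

/-- For every `g : ℕ → ℕ` the set of all sequences `n` of positive integers with
`n (k + 1) > n k + g k` for all `k` and `z ^ n k → 1` for some `z` on the circle that is not a root
of unity is `Σ¹₁`-complete: it is analytic, and every analytic subset `A` of Baire space is the
preimage of it under a continuous map all of whose values are such growing sequences.  In particular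
it is not Borel. -/
theorem result (g : ℕ → ℕ) :
    AnalyticSet (IrrationalLimit ∩ Growing g) ∧
    (∀ A : Set (ℕ → ℕ), AnalyticSet A → ∃ f : (ℕ → ℕ) → (ℕ → ℤ), Continuous f ∧
      (∀ x, f x ∈ Growing g) ∧ f ⁻¹' IrrationalLimit = A) ∧
    ¬ MeasurableSet[borel (ℕ → ℤ)] (IrrationalLimit ∩ Growing g) :=
  ⟨analytic_growing g, hard_growing g, not_borel_growing g⟩

end Pool.Agent.Results.MP_9e8ffd_lc.IncreasingSequences
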